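import Pool.Agent.J4H46.TS.Grp
import Pool.Agent.J4H46.TR.Fld

/-!
An automorphism which permutes the roots of each polynomial of a finite set in one cycle, if the Galois groups
are the full symmetric groups, and moves the given radicals.
-/

set_option autoImplicit false
set_option linter.all false

open Polynomial NumberField
open scoped Classical

namespace Pool.Agent.J4H46.TS

open Pool.Agent.X243.Gen Pool.Agent.X243.Sol Pool.Agent.J4H46.TA Pool.Agent.J4H46.TP
  Pool.Agent.J4H46.TR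

section surj

variable {k : Type} [Field k] [CharZero k]

theorem full_surj {f : k[X]} (hf0 : f ≠ 0) (hf : FullG f) :
    Function.Surjective (MulAction.toPermHom (AlgebraicClosure k ≃ₐ[k] AlgebraicClosure k)
      (f.rootSet (AlgebraicClosure k))) := by
  intro π
  haveI : CharZero f.SplittingField := charZero_of_injective_algebraMap
    (algebraMap k f.SplittingField).injective
  haveI : IsGalois k f.SplittingField := ⟨⟩
  have hsp := SplittingField.splits f
  obtain ⟨i, -⟩ : ∃ i : f.SplittingField →ₐ[k] AlgebraicClosure k, i = i :=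
    ⟨IsAlgClosed.lift, rfl⟩
  letI : Algebra f.SplittingField (AlgebraicClosure k) := i.toRingHom.toAlgebra
  haveI : IsScalarTower k f.SplittingField (AlgebraicClosure k) :=
    IsScalarTower.of_algebraMap_eq fun x => (i.commutes x).symm
  have hroots : f.rootSet (AlgebraicClosure k) =
      (algebraMap f.SplittingField (AlgebraicClosure k)) '' f.rootSet f.SplittingField :=
    hsp.image_rootSet_algebraMap.symm
  obtain ⟨e, he⟩ : ∃ e : f.rootSet f.SplittingField ≃ f.rootSet (AlgebraicClosure k),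
      ∀ x, ((e x : f.rootSet (AlgebraicClosure k)) : AlgebraicClosure k) =
        algebraMap f.SplittingField (AlgebraicClosure k) (x : f.SplittingField) := by
    refine ⟨Equiv.ofBijective (fun x => ⟨algebraMap f.SplittingField (AlgebraicClosure k) x, by
      rw [hroots]; exact ⟨x, x.2, rfl⟩⟩) ⟨?_, ?_⟩, fun x => rfl⟩
    · intro x y hxy
      have := congrArg Subtype.val hxy
      exact Subtype.ext ((algebraMap f.SplittingField (AlgebraicClosure k)).injective this)
    · rintro ⟨z, hz⟩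
      have hz' := hz
      rw [hroots] at hz'
      obtain ⟨x, hx, rfl⟩ := hz'
      exact ⟨⟨x, hx⟩, rfl⟩
  obtain ⟨σ, hσ⟩ := hf f.SplittingField hsp ((e.trans π).trans e.symm)
  refine ⟨σ.liftNormal (AlgebraicClosure k), ?_⟩
  ext z
  obtain ⟨x, rfl⟩ := e.surjective z
  show (σ.liftNormal (AlgebraicClosure k)) ((e x : f.rootSet (AlgebraicClosure k)) :
    AlgebraicClosure k) = _
  rw [he, AlgEquiv.liftNormal_commutes]
  have h1 := congrArg (fun p : Equiv.Perm (f.rootSet f.SplittingField) =>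
    ((e (p x) : f.rootSet (AlgebraicClosure k)) : AlgebraicClosure k)) hσ
  beta_reduce at h1
  rw [he] at h1
  rw [Equiv.trans_apply, Equiv.trans_apply, Equiv.apply_symm_apply] at h1
  exact h1

end surj

section kummer

variable {k Ω : Type} [Field k] [Field Ω] [Algebra k Ω]

/-- The action on a radical. -/
noncomputable def kap {w : Ω} (hw : w ≠ 0)
    (h : ∀ σ : Ω ≃ₐ[k] Ω, ∃ u : k, algebraMap k Ω u * w = σ w) : (Ω ≃ₐ[k] Ω) →* Ωˣ :=
  MonoidHom.mk' (fun σ => Units.mk0 (σ w / w) (div_ne_zero (by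
    intro h0
    exact hw ((map_eq_zero_iff σ σ.injective).1 h0)) hw)) (by
    intro σ τ
    ext
    obtain ⟨u, hu⟩ := h τ
    show (σ * τ) w / w = (σ w / w) * (τ w / w)
    rw [AlgEquiv.mul_apply, ← hu, map_mul, AlgEquiv.commutes]
    field_simp)

theorem kap_val {w : Ω} (hw : w ≠ 0)
    (h : ∀ σ : Ω ≃ₐ[k] Ω, ∃ u : k, algebraMap k Ω u * w = σ w) (σ : Ω ≃ₐ[k] Ω) :
    σ w = ((kap hw h σ : Ωˣ) : Ω) * w := by
  show σ w = (σ w / w) * w
  field_simp

theorem pow_ne {A : Type} [Group A] {u : A} {p m : ℕ} (hu : u ^ p = 1) (h1 : u ≠ 1)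
    (hpm : Nat.Coprime p m) : u ^ m ≠ 1 := by
  intro h
  apply h1
  have h2 := pow_gcd_eq_one.2 ⟨hu, h⟩
  rwa [hpm, pow_one] at h2

end kummer

section main

variable {k : Type} [Field k] [CharZero k]

/-- The constant whose radicals are considered. -/
noncomputable def cst (f : k[X]) : k := f.coeff 0 / f.leadingCoeff

theorem tower_sigma {F : Finset k[X]} {n : ℕ} (h5 : 5 ≤ n) (hn : Odd n) (hF : ∀ f ∈ F, FF n f)
    {S : Finset ℕ} (hS : ∀ p ∈ S, p.Prime ∧ Odd p ∧ F.card < p)
    (hζ : ∀ p ∈ S, ∃ ζ : k, IsPrimitiveRoot ζ p)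
    (hc : ∀ p ∈ S, ∀ f ∈ F, ∀ y : k, y ^ p ≠ cst f) :
    ∃ σ : AlgebraicClosure k ≃ₐ[k] AlgebraicClosure k, (∀ f ∈ F, OneCycle σ f) ∧
      ∀ p ∈ S, ∀ f ∈ F, OneCycle σ (X ^ p - C (cst f)) := by
  haveI : CharZero (AlgebraicClosure k) :=
    charZero_of_injective_algebraMap (algebraMap k (AlgebraicClosure k)).injective
  have injΩ := (algebraMap k (AlgebraicClosure k)).injective
  -- the radicals
  have hw : ∀ i : S × F, ∃ w : AlgebraicClosure k, w ≠ 0 ∧
      w ^ (i.1 : ℕ) = algebraMap k (AlgebraicClosure k) (cst (i.2 : k[X])) := by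
    intro i
    obtain ⟨w, hw⟩ := IsAlgClosed.exists_pow_nat_eq
      (algebraMap k (AlgebraicClosure k) (cst (i.2 : k[X]))) ((hS _ i.1.2).1.pos)
    refine ⟨w, ?_, hw⟩
    rintro rfl
    rw [zero_pow (hS _ i.1.2).1.ne_zero] at hw
    have h0 : cst (i.2 : k[X]) = 0 := injΩ (by rw [← hw, map_zero])
    apply hc _ i.1.2 _ i.2.2 0
    rw [h0, zero_pow (hS _ i.1.2).1.ne_zero]
  choose w hw0 hwp using hw
  -- roots of unity are in `k`
  have hroot : ∀ p ∈ S, ∀ z : AlgebraicClosure k, z ^ p = 1 →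
      ∃ u : k, algebraMap k (AlgebraicClosure k) u = z := by
    intro p hp z hz
    obtain ⟨ζ, hζ'⟩ := hζ p hp
    haveI : NeZero p := ⟨(hS p hp).1.ne_zero⟩
    obtain ⟨i, -, hi⟩ := (hζ'.map_of_injective injΩ).eq_pow_of_pow_eq_one hz
    exact ⟨ζ ^ i, by rw [map_pow, hi]⟩
  have hmov : ∀ (i : S × F) (σ : AlgebraicClosure k ≃ₐ[k] AlgebraicClosure k),
      ∃ u : k, algebraMap k (AlgebraicClosure k) u * w i = σ (w i) := by
    intro i σ
    obtain ⟨u, hu⟩ := hroot _ i.1.2 (σ (w i) / w i) (by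
      rw [div_pow, ← map_pow, hwp, AlgEquiv.commutes, ← hwp]
      exact div_self (pow_ne_zero _ (hw0 i)))
    exact ⟨u, by rw [hu]; exact div_mul_cancel₀ _ (hw0 i)⟩
  obtain ⟨κ, hκ⟩ : ∃ κ : ∀ i : S × F,
      (AlgebraicClosure k ≃ₐ[k] AlgebraicClosure k) →* (AlgebraicClosure k)ˣ,
      ∀ i σ, σ (w i) = ((κ i σ : (AlgebraicClosure k)ˣ) : AlgebraicClosure k) * w i :=
    ⟨fun i => kap (hw0 i) (hmov i), fun i σ => kap_val (hw0 i) (hmov i) σ⟩
  have hκp : ∀ i σ, (κ i σ) ^ (i.1 : ℕ) = 1 := by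
    intro i σ
    ext
    rw [Units.val_pow_eq_pow_val, Units.val_one]
    have h1 := congrArg (· ^ (i.1 : ℕ)) (hκ i σ)
    beta_reduce at h1
    rw [← map_pow, hwp, AlgEquiv.commutes, mul_pow, hwp] at h1
    have h2 : algebraMap k (AlgebraicClosure k) (cst (i.2 : k[X])) ≠ 0 := by
      rw [← hwp]
      exact pow_ne_zero _ (hw0 i)
    exact (mul_eq_right₀ h2).1 h1.symm
  obtain ⟨K, hK⟩ : ∃ K : (AlgebraicClosure k ≃ₐ[k] AlgebraicClosure k) →*
      (S × F → (AlgebraicClosure k)ˣ), ∀ σ i, K σ i = κ i σ :=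
    ⟨Pi.monoidHom κ, fun σ i => rfl⟩
  -- the actions on the roots
  obtain ⟨γ, hγ⟩ : ∃ γ : ∀ f : F, (AlgebraicClosure k ≃ₐ[k] AlgebraicClosure k) →*
      Equiv.Perm ((f : k[X]).rootSet (AlgebraicClosure k)),
      ∀ f, γ f = MulAction.toPermHom (AlgebraicClosure k ≃ₐ[k] AlgebraicClosure k)
        ((f : k[X]).rootSet (AlgebraicClosure k)) := ⟨_, fun f => rfl⟩
  have sγ : ∀ f : F, Function.Surjective (γ f) := by
    intro f
    rw [hγ]
    exact full_surj (hF f f.2).2.1.ne_zero (hF f f.2).2.2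
  have cardf : ∀ f : F, Fintype.card ((f : k[X]).rootSet (AlgebraicClosure k)) = n := by
    intro f
    rw [card_rootSet_eq_natDegree (hF f f.2).2.1 (IsAlgClosed.splits _), (hF f f.2).1.2]
  -- cycles on the roots, fixing the radicals
  obtain ⟨h, hh, hcyc⟩ := all_cyc (ι := F)
    (X := fun f => (f : k[X]).rootSet (AlgebraicClosure k)) (N := n) (r := n) cardf h5 hn le_rfl
    (Nat.le_succ n) sγ (H := K.ker) inferInstance Finset.univ (fun f _ => by
      obtain ⟨c, cA, hcc⟩ := exists_odd_cyc (cardf f) h5 hn le_rfl (Nat.le_succ n)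
      have hc1 : c ≠ 1 := by
        rintro rfl
        exact nsq (by omega) hcc (mul_one 1)
      obtain ⟨c', cA', h2⟩ := noncomm (by rw [cardf f]; exact h5) cA hc1
      obtain ⟨x, hx⟩ := sγ f c
      obtain ⟨y, hy⟩ := sγ f c'
      refine ⟨x * y * x⁻¹ * y⁻¹, ?_, ?_⟩
      · rw [MonoidHom.mem_ker, map_mul, map_mul, map_mul, map_inv, map_inv]
        rw [mul_comm (K x) (K y)]
        group
      · rw [map_mul, map_mul, map_mul, map_inv, map_inv, hx, hy]
        exact h2)
  -- moving all the radicals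
  have hmove : ∀ T : Finset ℕ, T ⊆ S → ∃ τ : AlgebraicClosure k ≃ₐ[k] AlgebraicClosure k,
      ∀ i : S × F, (i.1 : ℕ) ∈ T → κ i τ ≠ 1 := by
    intro T
    induction T using Finset.induction_on with
    | empty => exact fun _ => ⟨1, fun i hi => absurd hi (Finset.notMem_empty _)⟩
    | insert p T hp ih =>
      intro hT
      obtain ⟨τ, hτ⟩ := ih fun x hx => hT (Finset.mem_insert_of_mem hx)
      have hpS : p ∈ S := hT (Finset.mem_insert_self _ _)
      obtain ⟨pp, op, cp⟩ := hS p hpS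
      obtain ⟨ρ, hρ⟩ := prime_fam' (k := k) (F := F.image fun f => X ^ p - C (cst f)) pp
        (fun g hg => by
          obtain ⟨f, hf, rfl⟩ := Finset.mem_image.1 hg
          exact ⟨X_pow_sub_C_irreducible_of_prime pp (hc p hpS f hf), natDegree_X_pow_sub_C⟩)
        (lt_of_le_of_lt Finset.card_image_le cp)
      have hρ1 : ∀ i : S × F, (i.1 : ℕ) = p → κ i ρ ≠ 1 := by
        intro i hi h1
        obtain ⟨x, hx, hall⟩ := hρ _ (Finset.mem_image_of_mem _ i.2.2)
        have hmem : ∀ z : AlgebraicClosure k, z ∈ (X ^ p - C (cst (i.2 : k[X]))).rootSet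
            (AlgebraicClosure k) ↔ z ^ p = algebraMap k (AlgebraicClosure k) (cst (i.2 : k[X])) := by
          intro z
          rw [mem_rootSet, map_sub, map_pow, aeval_X, aeval_C, sub_eq_zero]
          exact ⟨fun h => h.2, fun h => ⟨X_pow_sub_C_ne_zero pp.pos _, h⟩⟩
        have hwm : w i ∈ (X ^ p - C (cst (i.2 : k[X]))).rootSet (AlgebraicClosure k) := by
          rw [hmem, ← hi]
          exact hwp i
        have hfix : ρ (w i) = w i := by rw [hκ, h1, Units.val_one, one_mul]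
        have hfixn : ∀ j : ℕ, (ρ ^ j) (w i) = w i := by
          intro j
          induction j with
          | zero => rfl
          | succ j ihj => rw [pow_succ', AlgEquiv.mul_apply, ihj, hfix]
        have hxw : x = w i := by
          obtain ⟨j, hj⟩ := hall _ hwm
          apply (ρ ^ j).injective
          rw [← hj, hfixn]
        obtain ⟨ζ, hζ'⟩ := hζ p hpS
        have hζΩ := hζ'.map_of_injective injΩ
        obtain ⟨j, hj⟩ := hall (algebraMap k (AlgebraicClosure k) ζ * w i) (by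
          rw [hmem, mul_pow, hζΩ.pow_eq_one, one_mul, ← hmem]
          exact hwm)
        rw [hxw, hfixn] at hj
        have h2 : algebraMap k (AlgebraicClosure k) ζ = 1 := (mul_eq_right₀ (hw0 i)).1 hj
        exact hζΩ.ne_one pp.one_lt h2
      have hcop : Nat.Coprime p (∏ x ∈ T, x) := by
        apply Nat.Coprime.prod_right
        intro x hx
        refine (Nat.coprime_primes pp (hS x (hT (Finset.mem_insert_of_mem hx))).1).2 ?_
        rintro rfl
        exact hp hx
      refine ⟨τ ^ p * ρ ^ (∏ x ∈ T, x), fun i hi => ?_⟩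
      rw [map_mul, map_pow, map_pow]
      rcases Finset.mem_insert.1 hi with hi | hi
      · have h1 := hκp i τ
        rw [hi] at h1
        rw [h1, one_mul]
        have h2 := hκp i ρ
        rw [hi] at h2
        exact pow_ne h2 (hρ1 i hi) hcop
      · obtain ⟨m, hm⟩ := Finset.dvd_prod_of_mem (fun x : ℕ => x) hi
        beta_reduce at hm
        rw [hm, pow_mul, hκp i ρ, one_pow, mul_one]
        refine pow_ne (hκp i τ) (hτ i hi) ((Nat.coprime_primes (hS _ i.1.2).1 pp).2 ?_)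
        intro he
        rw [he] at hi
        exact hp hi
  obtain ⟨τ, hτ⟩ := hmove S (Finset.Subset.refl S)
  obtain ⟨τ', hτ1, hτ2⟩ := kill (ι := F) cardf h5 sγ K τ Finset.univ
  have hτ' : ∀ i, κ i τ' ≠ 1 := by
    intro i
    have h1 : K τ' i = (K τ) i ^ (2 ^ (Finset.univ : Finset F).card) := by
      rw [hτ2, Pi.pow_apply]
    rw [hK, hK] at h1
    rw [h1]
    exact pow_ne (hκp i τ) (hτ i i.1.2)
      (Nat.Coprime.pow_right _ ((Nat.coprime_two_right).2 (hS _ i.1.2).2.1))
  obtain ⟨σ, hσ⟩ : ∃ σ, σ = h * τ' := ⟨_, rfl⟩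
  have hσκ : ∀ i, κ i σ ≠ 1 := by
    intro i
    rw [hσ, map_mul]
    have h1 : κ i h = 1 := by
      rw [← hK, MonoidHom.mem_ker.1 hh]
      rfl
    rw [h1, one_mul]
    exact hτ' i
  have hσγ : ∀ f : F, γ f σ = γ f h := by
    intro f
    rw [hσ, map_mul, hτ1 f (Finset.mem_univ f), mul_one]
  refine ⟨σ, fun f hf => ?_, fun p hp f hf => ?_⟩
  · obtain ⟨x, hx⟩ := oneCyc_of (hcyc ⟨f, hf⟩ (Finset.mem_univ _)) (le_of_eq (cardf ⟨f, hf⟩))
    refine ⟨x, x.2, fun z hz => ?_⟩
    obtain ⟨i, hi⟩ := hx ⟨z, hz⟩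
    rw [← hσγ] at hi
    refine ⟨i, ?_⟩
    have h1 : ∀ (i : ℕ) (z : (f : k[X]).rootSet (AlgebraicClosure k)),
        (((γ ⟨f, hf⟩ σ ^ i) z : f.rootSet (AlgebraicClosure k)) : AlgebraicClosure k) =
        (σ ^ i) z := by
      intro i z
      rw [← map_pow, hγ]
      rfl
    rw [← h1, ← hi]
  · obtain ⟨i, hi⟩ : ∃ i : S × F, i = (⟨p, hp⟩, ⟨f, hf⟩) := ⟨_, rfl⟩
    have pp := (hS p hp).1
    have hmem : ∀ z : AlgebraicClosure k, z ∈ (X ^ p - C (cst f)).rootSet
        (AlgebraicClosure k) ↔ z ^ p = algebraMap k (AlgebraicClosure k) (cst f) := by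
      intro z
      rw [mem_rootSet, map_sub, map_pow, aeval_X, aeval_C, sub_eq_zero]
      exact ⟨fun h => h.2, fun h => ⟨X_pow_sub_C_ne_zero pp.pos _, h⟩⟩
    have hwi : (w i) ^ p = algebraMap k (AlgebraicClosure k) (cst f) := by
      have := hwp i
      rw [hi] at this ⊢
      exact this
    refine ⟨w i, (hmem _).2 hwi, fun z hz => ?_⟩
    rw [hmem] at hz
    have hu : (κ i σ) ^ p = 1 := by
      have := hκp i σ
      rw [hi] at this ⊢
      exact this
    have hprim : IsPrimitiveRoot ((κ i σ : (AlgebraicClosure k)ˣ) : AlgebraicClosure k) p := by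
      rw [IsPrimitiveRoot.coe_units_iff]
      haveI : Fact p.Prime := ⟨pp⟩
      have h1 := orderOf_eq_prime hu (hσκ i)
      rw [← h1]
      exact IsPrimitiveRoot.orderOf _
    haveI : NeZero p := ⟨pp.ne_zero⟩
    obtain ⟨j, -, hj⟩ := hprim.eq_pow_of_pow_eq_one (ξ := z / w i) (by
      rw [div_pow, hz, ← hwi]
      exact div_self (pow_ne_zero _ (hw0 i)))
    refine ⟨j, ?_⟩
    rw [hκ, map_pow, Units.val_pow_eq_pow_val, hj]
    exact (div_mul_cancel₀ _ (hw0 i)).symm

end main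

end Pool.Agent.J4H46.TS
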