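import Pool.Agent.N181.P3.Dens
import Pool.Agent.J4H46.TR.Sieve
import Pool.Agent.J4H46.TS.Sig

/-!
Counting: pairs of polynomials over a finite field, one of whose combinations has a constant term which is not a
`p`-th power and a leading coefficient which is one.
-/

set_option autoImplicit false
set_option linter.all false

open Polynomial
open scoped Classical

namespace Pool.Agent.J4H46.TS

open Pool.Agent.N181.P3 (Zq Idx cl cm cl_ne cl_det Lev_card' linQ)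
open Pool.Agent.X243.Gen (FF FF_unit Lev densityU lf lin_one bF_lf)
open Pool.Agent.X243.Sol (DD D3_pos)
open Pool.Agent.Y160.T3 (bF bF_coeff)

section fld

variable {κ : Type} [Field κ] [Finite κ]

theorem pow_count {p : ℕ} (hp : p.Prime) {z : κ} (hz : z ^ p = 1) (hz1 : z ≠ 1) :
    (Nat.card κ) ^ 2 ≤ 8 * p * ({A : κ | ∀ y : κ, y ^ p ≠ A}.ncard *
      {B : κ | B ≠ 0 ∧ ∃ y : κ, y ^ p = B}.ncard) := by
  haveI := Fintype.ofFinite κ
  haveI : NeZero p := ⟨hp.ne_zero⟩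
  obtain ⟨R, hR⟩ : ∃ R : κˣ →* κˣ, ∀ u, R u = u ^ p := ⟨powMonoidHom p, fun u => rfl⟩
  have c1 : Nat.card R.ker * Nat.card R.range = Nat.card κ - 1 := by
    rw [← Subgroup.index_ker, Subgroup.card_mul_index, Nat.card_units]
  have hker : R.ker = rootsOfUnity p κ := by
    ext u
    rw [MonoidHom.mem_ker, hR, mem_rootsOfUnity]
  have c2 : Nat.card R.ker ≤ p := by
    rw [hker]
    exact card_rootsOfUnity κ p
  have c3 : 2 ≤ Nat.card R.ker := by
    have hz0 : z ≠ 0 := by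
      rintro rfl
      rw [zero_pow hp.ne_zero] at hz
      exact zero_ne_one hz
    have hu : Units.mk0 z hz0 ∈ R.ker := by
      rw [MonoidHom.mem_ker, hR]
      ext
      simpa using hz
    haveI : Nontrivial R.ker := ⟨⟨⟨_, hu⟩, 1, by
      intro h
      apply hz1
      have := congrArg (fun x : R.ker => ((x : κˣ) : κ)) h
      simpa using this⟩⟩
    rw [Nat.card_eq_fintype_card]
    exact Fintype.one_lt_card
  obtain ⟨S2, hS2⟩ : ∃ S2 : Set κ, S2 = {B : κ | B ≠ 0 ∧ ∃ y : κ, y ^ p = B} := ⟨_, rfl⟩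
  obtain ⟨S1, hS1⟩ : ∃ S1 : Set κ, S1 = {A : κ | ∀ y : κ, y ^ p ≠ A} := ⟨_, rfl⟩
  have c4 : S2.ncard = Nat.card R.range := by
    have e : S2 = (fun u : κˣ => (u : κ)) '' (R.range : Set κˣ) := by
      ext B
      rw [hS2]
      constructor
      · rintro ⟨hB, y, hy⟩
        have hy0 : y ≠ 0 := by
          rintro rfl
          rw [zero_pow hp.ne_zero] at hy
          exact hB hy.symm
        refine ⟨R (Units.mk0 y hy0), ⟨_, rfl⟩, ?_⟩
        rw [hR]
        simpa using hy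
      · rintro ⟨_, ⟨u, rfl⟩, rfl⟩
        exact ⟨Units.ne_zero _, u, by rw [hR]; simp⟩
    rw [e, Set.ncard_image_of_injective _ Units.val_injective]
    exact (Nat.card_coe_set_eq _).symm
  have c5 : S1.ncard + (S2.ncard + 1) = Nat.card κ := by
    have e : S1 = (insert 0 S2)ᶜ := by
      ext A
      rw [hS1, hS2]
      simp only [Set.mem_setOf_eq, Set.mem_compl_iff, Set.mem_insert_iff, not_or, not_and,
        not_exists]
      constructor
      · intro h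
        exact ⟨fun h0 => h 0 (by rw [h0, zero_pow hp.ne_zero]), fun _ => h⟩
      · rintro ⟨h1, h2⟩
        exact h2 h1
    have h0 : (0 : κ) ∉ S2 := by
      rw [hS2]
      exact fun h => h.1 rfl
    have := Set.ncard_add_ncard_compl (insert 0 S2)
    rw [← e, Set.ncard_insert_of_notMem h0] at this
    omega
  rw [← hS1, ← hS2]
  have hq : 2 ≤ Nat.card κ := by
    rw [Nat.card_eq_fintype_card]
    exact Fintype.one_lt_card
  obtain ⟨t, ht⟩ : ∃ t, Nat.card κ = t + 1 := ⟨Nat.card κ - 1, by omega⟩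
  rw [← c4] at c1
  rw [ht] at c1 c5 hq ⊢
  have e1 : t + 1 - 1 = t := by omega
  rw [e1] at c1
  have h1 : 2 * S2.ncard ≤ t := by
    rw [← c1]
    exact Nat.mul_le_mul_right _ c3
  have h2 : t ≤ p * S2.ncard := by
    rw [← c1]
    exact Nat.mul_le_mul_right _ c2
  have h3 : t ≤ 2 * S1.ncard := by omega
  have h4 : t * t ≤ (2 * S1.ncard) * (p * S2.ncard) := Nat.mul_le_mul h3 h2
  calc (t + 1) ^ 2 ≤ (2 * t) ^ 2 := Nat.pow_le_pow_left (by omega) 2
    _ = 4 * (t * t) := by ring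
    _ ≤ 4 * ((2 * S1.ncard) * (p * S2.ncard)) := Nat.mul_le_mul_left _ h4
    _ = 8 * p * (S1.ncard * S2.ncard) := by ring

end fld

/-- The vectors whose first coordinate is not a `p`-th power and whose last coordinate is a nonzero one. -/
def Kset (κ : Type) [CommRing κ] (N p : ℕ) : Set (Fin (N + 1) → κ) :=
  {w | (∀ y : κ, y ^ p ≠ w 0) ∧ w (Fin.last N) ≠ 0 ∧ ∃ y : κ, y ^ p = w (Fin.last N)}

theorem Kset_card {κ : Type} [Field κ] [Finite κ] {N p : ℕ} (hN : 1 ≤ N) (hp : p.Prime) {z : κ}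
    (hz : z ^ p = 1) (hz1 : z ≠ 1) : Nat.card κ ^ (N + 1) ≤ 8 * p * (Kset κ N p).ncard := by
  haveI := Fintype.ofFinite κ
  obtain ⟨M, rfl⟩ : ∃ M, N = M + 1 := ⟨N - 1, by omega⟩
  have h := pow_count hp hz hz1
  obtain ⟨S2, hS2⟩ : ∃ S2 : Set κ, S2 = {B : κ | B ≠ 0 ∧ ∃ y : κ, y ^ p = B} := ⟨_, rfl⟩
  obtain ⟨S1, hS1⟩ : ∃ S1 : Set κ, S1 = {A : κ | ∀ y : κ, y ^ p ≠ A} := ⟨_, rfl⟩
  rw [← hS1, ← hS2] at h
  have h1 : S1.ncard * (Nat.card κ ^ M * S2.ncard) ≤ (Kset κ (M + 1) p).ncard := by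
    have e : Nat.card κ ^ M = (Set.univ : Set (Fin M → κ)).ncard := by
      rw [Set.ncard_univ, Nat.card_fun, Nat.card_eq_fintype_card (α := Fin M), Fintype.card_fin]
    rw [e, ← Set.ncard_prod, ← Set.ncard_prod]
    refine Set.ncard_le_ncard_of_injOn (fun x : κ × (Fin M → κ) × κ =>
      (Fin.cons x.1 (Fin.snoc x.2.1 x.2.2 : Fin (M + 1) → κ) : Fin (M + 2) → κ)) ?_ ?_
      (Set.toFinite _)
    · rintro ⟨a, f, b⟩ ⟨ha, -, hb⟩
      have e1 : (Fin.cons a (Fin.snoc f b : Fin (M + 1) → κ) : Fin (M + 2) → κ) 0 = a :=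
        Fin.cons_zero _ _
      have e2 : (Fin.cons a (Fin.snoc f b : Fin (M + 1) → κ) : Fin (M + 2) → κ)
          (Fin.last (M + 1)) = b := by
        rw [← Fin.succ_last, Fin.cons_succ, Fin.snoc_last]
      rw [hS1] at ha
      rw [hS2] at hb
      refine ⟨?_, ?_, ?_⟩
      · show ∀ y : κ, y ^ p ≠ (Fin.cons a (Fin.snoc f b : Fin (M + 1) → κ) : Fin (M + 2) → κ) 0
        rw [e1]
        exact ha
      · show (Fin.cons a (Fin.snoc f b : Fin (M + 1) → κ) : Fin (M + 2) → κ)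
          (Fin.last (M + 1)) ≠ 0
        rw [e2]
        exact hb.1
      · show ∃ y : κ, y ^ p = (Fin.cons a (Fin.snoc f b : Fin (M + 1) → κ) : Fin (M + 2) → κ)
          (Fin.last (M + 1))
        rw [e2]
        exact hb.2
    · rintro ⟨a, f, b⟩ - ⟨a', f', b'⟩ - hh
      have h1 := Fin.cons_injective2 hh
      have h2 := Fin.snoc_injective2 h1.2
      have e1 : a = a' := h1.1
      have e2 : f = f' := h2.1
      have e3 : b = b' := h2.2
      rw [e1, e2, e3]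
  calc Nat.card κ ^ (M + 1 + 1) = Nat.card κ ^ 2 * Nat.card κ ^ M := by ring
    _ ≤ (8 * p * (S1.ncard * S2.ncard)) * Nat.card κ ^ M := Nat.mul_le_mul_right _ h
    _ = 8 * p * (S1.ncard * (Nat.card κ ^ M * S2.ncard)) := by ring
    _ ≤ _ := Nat.mul_le_mul_left _ h1

section event

variable {R : Type} [CommRing R] {I : Type}

/-- The event. -/
def Kev (N p : ℕ) (l m : I → R) (i : I) (P : Ideal R) : Set (Fin (N + 1) ⊕ Fin (N + 1) → R ⧸ P) :=
  {z | lf (fun i => Ideal.Quotient.mk P (l i)) (fun i => Ideal.Quotient.mk P (m i)) i z ∈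
    Kset (R ⧸ P) N p}

theorem Kev_card {N p : ℕ} (hN : 1 ≤ N) (hp : p.Prime) (l m : I → R) (i : I) {P : Ideal R}
    (hm : P.IsMaximal) (hfin : Finite (R ⧸ P))
    (h1 : Ideal.Quotient.mk P (l i) ≠ 0 ∨ Ideal.Quotient.mk P (m i) ≠ 0)
    (hz : ∃ z : R ⧸ P, z ^ p = 1 ∧ z ≠ 1) :
    Nat.card (R ⧸ P) ^ (2 * N + 2) ≤ 8 * p * (Kev N p l m i P).ncard := by
  haveI := hm
  letI : Field (R ⧸ P) := Ideal.Quotient.field P
  haveI : Finite (R ⧸ P) := hfin
  obtain ⟨z, hz, hz1⟩ := hz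
  have h2 := Kset_card (κ := R ⧸ P) hN hp hz hz1
  have h3 : (Kev N p l m i P).ncard = Nat.card (R ⧸ P) ^ (N + 1) * (Kset (R ⧸ P) N p).ncard :=
    lin_one h1 (Kset (R ⧸ P) N p)
  rw [h3]
  calc Nat.card (R ⧸ P) ^ (2 * N + 2) = Nat.card (R ⧸ P) ^ (N + 1) * Nat.card (R ⧸ P) ^ (N + 1) := by
        ring
    _ ≤ Nat.card (R ⧸ P) ^ (N + 1) * (8 * p * (Kset (R ⧸ P) N p).ncard) :=
      Nat.mul_le_mul_left _ h2
    _ = _ := by ring

/-- All the events. -/
def LK {S : Finset ℕ} (N : ℕ) (l m : I → R) (i₀ i₁ : I) (s : Option (I × Fin 3) ⊕ (I × S))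
    (P : Ideal R) : Set (Fin (N + 1) ⊕ Fin (N + 1) → R ⧸ P) :=
  match s with
  | .inl s => Lev N l m i₀ i₁ s P
  | .inr s => Kev N s.2 l m s.1 P

theorem LK_card {S : Finset ℕ} {N B : ℕ} (hN : 3 ≤ N) (hS : ∀ p ∈ S, p.Prime ∧ p ≤ B)
    (hB : 1 ≤ B) (l m : I → R) (i₀ i₁ : I)
    (s : Option (I × Fin 3) ⊕ (I × S)) {P : Ideal R} (hm : P.IsMaximal) (hfin : Finite (R ⧸ P))
    (hcard : 2 * N + 2 ≤ Nat.card (R ⧸ P))
    (h1 : ∀ i, Ideal.Quotient.mk P (l i) ≠ 0 ∨ Ideal.Quotient.mk P (m i) ≠ 0)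
    (h2 : Ideal.Quotient.mk P (l i₀) * Ideal.Quotient.mk P (m i₁) -
        Ideal.Quotient.mk P (l i₁) * Ideal.Quotient.mk P (m i₀) ≠ 0)
    (hz : ∀ p ∈ S, ∃ z : R ⧸ P, z ^ p = 1 ∧ z ≠ 1) :
    Nat.card (R ⧸ P) ^ (2 * N + 2) ≤ (DD N * DD N * (8 * B)) * (LK N l m i₀ i₁ s P).ncard := by
  have hDD : 0 < DD N := by
    have := D3_pos N
    unfold DD
    positivity
  rcases s with s | ⟨i, p, hp⟩
  · refine (Lev_card' hN l m i₀ i₁ s hm hfin hcard h1 h2).trans ?_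
    refine Nat.mul_le_mul_right _ ?_
    exact Nat.le_mul_of_pos_right _ (by omega)
  · refine (Kev_card (by omega) (hS p hp).1 l m i hm hfin (h1 i) (hz p hp)).trans ?_
    refine Nat.mul_le_mul_right _ ?_
    calc 8 * p ≤ 8 * B := Nat.mul_le_mul_left _ (hS p hp).2
      _ ≤ DD N * DD N * (8 * B) := Nat.le_mul_of_pos_left _ (Nat.mul_pos hDD hDD)

end event

/-- The constant is not a power. -/
theorem nonpow {R k : Type} [CommRing R] [IsDomain R] [IsIntegrallyClosed R] [Field k]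
    [Algebra R k] [IsFractionRing R k] {N p : ℕ} (hp : 0 < p) {P : Ideal R} (hP : P.IsMaximal)
    {G : R[X]} {w : Fin (N + 1) → R ⧸ P} (hw : w ∈ Kset (R ⧸ P) N p)
    (e : bF w = G.map (Ideal.Quotient.mk P)) (hd : (G.map (algebraMap R k)).natDegree = N) :
    ∀ y : k, y ^ p ≠ cst (G.map (algebraMap R k)) := by
  haveI := hP
  letI : Field (R ⧸ P) := Ideal.Quotient.field P
  obtain ⟨h1, h2, t, ht⟩ := hw
  have eA : Ideal.Quotient.mk P (G.coeff 0) = w 0 := by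
    rw [← coeff_map, ← e]
    exact bF_coeff w 0
  have eB : Ideal.Quotient.mk P (G.coeff N) = w (Fin.last N) := by
    rw [← coeff_map, ← e]
    exact bF_coeff w (Fin.last N)
  obtain ⟨A, hA⟩ : ∃ A, A = G.coeff 0 := ⟨_, rfl⟩
  obtain ⟨B, hB⟩ : ∃ B, B = G.coeff N := ⟨_, rfl⟩
  rw [← hA] at eA
  rw [← hB] at eB
  have inj := IsFractionRing.injective R k
  have hB0 : algebraMap R k B ≠ 0 := by
    intro h0
    apply h2
    rw [← eB, (map_eq_zero_iff _ inj).1 h0, map_zero]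
  have ec : cst (G.map (algebraMap R k)) = algebraMap R k A / algebraMap R k B := by
    unfold cst
    rw [leadingCoeff, hd, coeff_map, coeff_map, hA, hB]
  intro y hy
  rw [ec] at hy
  obtain ⟨p', rfl⟩ : ∃ p', p = p' + 1 := ⟨p - 1, by omega⟩
  have h3 : (y * algebraMap R k B) ^ (p' + 1) = algebraMap R k (A * B ^ p') := by
    rw [mul_pow, hy, map_mul, map_pow, pow_succ]
    field_simp
  have h4 : IsIntegral R (y * algebraMap R k B) := by
    apply IsIntegral.of_pow hp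
    rw [h3]
    exact isIntegral_algebraMap
  obtain ⟨z, hz⟩ := IsIntegrallyClosed.isIntegral_iff.1 h4
  rw [← hz, ← map_pow] at h3
  have h5 := congrArg (Ideal.Quotient.mk P) (inj h3)
  rw [map_pow, map_mul, map_pow, eA, eB, ← ht] at h5
  have ht0 : t ≠ 0 := by
    rintro rfl
    apply h2
    rw [← ht, zero_pow (Nat.succ_ne_zero p')]
  apply h1 (Ideal.Quotient.mk P z / t ^ p')
  rw [div_pow, h5, div_eq_iff (pow_ne_zero _ (pow_ne_zero _ ht0))]
  congr 1
  ring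

end Pool.Agent.J4H46.TS
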