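import Pool.Agent.J4H46.TR.Grp

/-!
Actions which are onto the symmetric groups, and a homomorphism into an abelian group: an element which acts
trivially, with a given value up to a power of two.
-/

set_option autoImplicit false
set_option linter.all false

open scoped Classical Nat
open Equiv Equiv.Perm

namespace Pool.Agent.J4H46.TS

open Pool.Agent.J4H46.TA Pool.Agent.J4H46.TR

variable {G ι : Type} [Group G] {X : ι → Type} [∀ i, Fintype (X i)] {N : ℕ}

theorem kill {A : Type} [CommGroup A] (hX : ∀ i, Fintype.card (X i) = N) (h5 : 5 ≤ N)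
    {γ : ∀ i, G →* Perm (X i)} (sγ : ∀ i, Function.Surjective (γ i)) (κ : G →* A) (τ : G)
    (t : Finset ι) : ∃ τ' : G, (∀ i ∈ t, γ i τ' = 1) ∧ κ τ' = (κ τ) ^ (2 ^ t.card) := by
  induction t using Finset.induction_on with
  | empty => exact ⟨τ, fun i hi => absurd hi (Finset.notMem_empty i), by simp⟩
  | insert j t hj ih =>
    obtain ⟨x, hx, hκ⟩ := ih
    obtain ⟨K, hK⟩ : ∃ K : Subgroup G, K = ⨅ i ∈ t, (γ i).ker := ⟨_, rfl⟩
    have hKn : K.Normal := by
      rw [hK]
      refine Subgroup.normal_iInf_normal fun i' => ?_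
      exact Subgroup.normal_iInf_normal fun _ => inferInstance
    have memK : ∀ y, y ∈ K ↔ ∀ i ∈ t, γ i y = 1 := by
      intro y
      rw [hK, Subgroup.mem_iInf]
      simp only [Subgroup.mem_iInf, MonoidHom.mem_ker]
    have hcard : (insert j t).card = t.card + 1 := Finset.card_insert_of_notMem hj
    have hκ2 : κ (x * x) = (κ τ) ^ (2 ^ (insert j t).card) := by
      rw [map_mul, hκ, hcard, pow_succ, pow_mul, pow_two]
    by_cases h1 : γ j (x * x) = 1
    · refine ⟨x * x, ?_, hκ2⟩
      intro i hi
      rcases Finset.mem_insert.1 hi with rfl | hi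
      · exact h1
      · rw [map_mul, hx i hi, mul_one]
    · have hxK : x * x ∈ K := K.mul_mem ((memK x).2 hx) ((memK x).2 hx)
      have hcA : γ j (x * x) ∈ alternatingGroup (X j) := by
        rw [map_mul]
        exact sq_alt _
      obtain ⟨c', cA', hcc⟩ := noncomm (by rw [hX j]; exact h5) hcA h1
      obtain ⟨w, hw, ew⟩ := alt_of (hX j) h5 (sγ j) hKn ⟨x * x, hxK, h1⟩ c' cA'
      have hmem : x * x * w * (x * x)⁻¹ * w⁻¹ ∈ ⁅K, K⁆ :=
        Subgroup.commutator_mem_commutator hxK hw
      obtain ⟨z, hz, ez⟩ := alt_of (hX j) h5 (sγ j) (K := ⁅K, K⁆) inferInstance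
        ⟨_, hmem, by
          rw [map_mul, map_mul (γ j) (x * x * w), map_mul (γ j) (x * x), map_inv, map_inv, ew]
          exact hcc⟩ _ hcA
      have hzK : z ∈ K := Subgroup.commutator_le_left K K hz
      have hzκ : κ z = 1 := by
        have h2 : z ∈ commutator G := Subgroup.commutator_mono le_top le_top hz
        exact Abelianization.commutator_subset_ker κ h2
      refine ⟨x * x * z⁻¹, ?_, ?_⟩
      · intro i hi
        rcases Finset.mem_insert.1 hi with rfl | hi
        · rw [map_mul, map_inv, ez, mul_inv_cancel]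
        · rw [map_mul, map_mul, hx i hi, map_inv, (memK z).1 hzK i hi]
          simp
      · rw [map_mul, map_inv, hzκ, inv_one, mul_one, hκ2]

end Pool.Agent.J4H46.TS
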