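import Mathlib

/-!
Irreducibility of `f(X ^ m)`.
-/

set_option autoImplicit false
set_option linter.all false

open Polynomial IntermediateField
open scoped Classical

namespace Pool.Agent.J4H46.TS

theorem expand_irr {K : Type} [Field K] {f : K[X]} {m : ℕ} (hm : Odd m) (hf : Irreducible f)
    (hn : Odd f.natDegree) (h : ∀ p : ℕ, p.Prime → p ∣ m → ∀ b : K,
      b ^ p ≠ f.coeff 0 / f.leadingCoeff) :
    Irreducible (expand K m f) := by
  have hf0 := hf.ne_zero
  have hl : f.leadingCoeff ≠ 0 := leadingCoeff_ne_zero.2 hf0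
  obtain ⟨g, hg⟩ : ∃ g, g = f * C (f.leadingCoeff)⁻¹ := ⟨_, rfl⟩
  have mg : g.Monic := by rw [hg]; exact monic_mul_leadingCoeff_inv hf0
  have eg : f = C f.leadingCoeff * g := by
    rw [hg, mul_comm f, ← mul_assoc, ← C_mul, mul_inv_cancel₀ hl, C_1, one_mul]
  have hu : IsUnit (C f.leadingCoeff : K[X]) := isUnit_C.2 (isUnit_iff_ne_zero.2 hl)
  have ig : Irreducible g := by
    have := hf
    rw [eg] at this
    exact (irreducible_isUnit_mul hu).1 this
  have hg0 : g.coeff 0 = f.coeff 0 / f.leadingCoeff := by rw [hg, coeff_mul_C, div_eq_mul_inv]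
  have dg : g.natDegree = f.natDegree := by
    rw [hg, natDegree_mul_C (inv_ne_zero hl)]
  have key : Irreducible (g.comp (X ^ m)) := by
    apply irreducible_comp mg (monic_X_pow m) ig
    intro E _ _ x hx
    have hint : IsIntegral K x := by
      by_contra h'
      rw [minpoly.eq_zero h'] at hx
      exact ig.ne_zero hx.symm
    rw [Polynomial.map_pow, map_X]
    apply X_pow_sub_C_irreducible_of_odd hm
    intro p hp hpm b hb
    apply h p hp hpm (-(Algebra.norm K b))
    have op : Odd p := Odd.of_dvd_nat hm hpm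
    have h1 : (Algebra.norm K b) ^ p = (-1) ^ g.natDegree * g.coeff 0 := by
      rw [← map_pow, hb, ← adjoin.powerBasis_gen hint,
        Algebra.PowerBasis.norm_gen_eq_coeff_zero_minpoly, adjoin.powerBasis_gen, minpoly_gen, hx,
        adjoin.powerBasis_dim, hx]
    rw [op.neg_pow, h1, dg, hn.neg_one_pow, hg0]
    ring
  have e : expand K m f = C f.leadingCoeff * g.comp (X ^ m) := by
    conv_lhs => rw [eg, map_mul, expand_C, expand_eq_comp_X_pow]
  rw [e]
  exact (irreducible_isUnit_mul hu).2 key

end Pool.Agent.J4H46.TS
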