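import Pool.Agent.J4H46.TS.Sieve
import Pool.Agent.J4H46.TS.Irr
import Pool.Agent.J4H46.TQ.Good

/-!
Towers of pullbacks: the primes at which the forms of all the maps `(q / r)(t ^ m)` are irreducible.
-/

set_option autoImplicit false
set_option linter.all false

open Polynomial NumberField IsDedekindDomain Filter Topology
open scoped Classical

namespace Pool.Agent.J4H46.TS

open Pool.Agent.W401.Cheb Pool.Agent.J4H46.TA Pool.Agent.J4H46.TP Pool.Agent.J4H46.TQ
open Pool.Agent.N181.P8 (TateQ OneAbove OneAboveInf)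
open Pool.Agent.N181.P9
open Pool.Agent.X243.Gen (FF pb pb_mul pb_C pb_lin)

section

variable {k : Type} [Field k] [NumberField k]

/-- At the primes with a Frobenius element with odd cycles on the roots of the polynomials in `G`, which do not
contain `s`, the polynomials `f₁(X ^ m)` are irreducible. -/
def RedIrr (S : Finset ℕ) (n : ℕ) (G : Finset k[X]) (s : 𝓞 k) (f₁ : (𝓞 k)[X]) : Prop :=
  ∀ (v : HeightOneSpectrum (𝓞 k)) (τ : GK k), IsFrob v τ → (∀ h ∈ G, OddCycles τ h) →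
    ∀ (κ : Type) [Field κ] (π : 𝓞 k →+* κ), Function.Surjective π → RingHom.ker π = v.asIdeal →
      π s ≠ 0 → (f₁.map π).natDegree = n ∧ ∀ m : ℕ, Odd m →
        (∀ p : ℕ, p.Prime → p ∣ m → p ∈ S) → Irreducible (expand κ m (f₁.map π))

theorem one_form {f₁ : (𝓞 k)[X]} {c : k} {f : k[X]} {n : ℕ} (hn : Odd n) (hc : c ≠ 0)
    (e : f₁.map (algebraMap (𝓞 k) k) = C c * f) (dn : f.natDegree = n) (sf : f.Separable)
    {S : Finset ℕ} (hS : ∀ p ∈ S, p.Prime ∧ Odd p) (hc' : ∀ p ∈ S, ∀ y : k, y ^ p ≠ cst f)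
    {σ : GK k} (h1 : OneCycle σ f) (h2 : ∀ p ∈ S, OneCycle σ (X ^ p - C (cst f))) :
    ∃ (G : Finset k[X]) (s : 𝓞 k), s ≠ 0 ∧ (∀ h ∈ G, h ≠ 0) ∧ (∀ h ∈ G, OddCycles σ h) ∧
      RedIrr S n G s f₁ := by
  have inj := FaithfulSMul.algebraMap_injective (𝓞 k) k
  have df₁ : f₁.natDegree = n := by
    rw [← natDegree_map_eq_of_injective inj, e, natDegree_C_mul hc, dn]
  have hf₁ : f₁ ≠ 0 := by
    rintro rfl
    rw [Polynomial.map_zero] at e
    exact mul_ne_zero (C_ne_zero.2 hc) sf.ne_zero e.symm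
  obtain ⟨A, hA⟩ : ∃ A, A = f₁.coeff 0 := ⟨_, rfl⟩
  obtain ⟨B, hB⟩ : ∃ B, B = f₁.leadingCoeff := ⟨_, rfl⟩
  have hB0 : B ≠ 0 := by rw [hB]; exact leadingCoeff_ne_zero.2 hf₁
  have hB' : algebraMap (𝓞 k) k B ≠ 0 := (map_ne_zero_iff _ inj).2 hB0
  have ec : cst f = algebraMap (𝓞 k) k A / algebraMap (𝓞 k) k B := by
    rw [← cst_C_mul hc, ← e]
    unfold cst
    rw [leadingCoeff_map_of_injective inj, coeff_map, hA, hB]
  obtain ⟨s₀, hs₀, hr₀⟩ := form_red (f := f₁) (e := 1) hc sf (by rw [dn]; exact hn)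
    (by rw [pow_one, e])
  have key : ∀ p : ℕ, ∃ s : 𝓞 k, p ∈ S → s ≠ 0 ∧
      (X ^ p - C (cst f)).Separable ∧
      ∀ (v : HeightOneSpectrum (𝓞 k)) (τ : GK k), IsFrob v τ → OddCycles τ (X ^ p - C (cst f)) →
      ∀ (κ : Type) [Field κ] (π : 𝓞 k →+* κ), Function.Surjective π → RingHom.ker π = v.asIdeal →
        π s ≠ 0 → ∃ (P : κ[X]) (u : κ), u ≠ 0 ∧ Irreducible P ∧ P.Separable ∧
          P.natDegree = (X ^ p - C (cst f)).natDegree ∧
            (C B * X ^ p - C A).map π = C u * P ^ 1 := by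
    intro p
    by_cases hp : p ∈ S
    · have hc0 : cst f ≠ 0 := by
        intro h0
        apply hc' p hp 0
        rw [h0, zero_pow (hS p hp).1.ne_zero]
      have sp : (X ^ p - C (cst f)).Separable := separable_X_pow_sub_C _
        (Nat.cast_ne_zero.2 (hS p hp).1.ne_zero) hc0
      obtain ⟨s, hs, hr⟩ := form_red (f := C B * X ^ p - C A) (c := algebraMap (𝓞 k) k B)
        (ρ := X ^ p - C (cst f)) (e := 1) hB' sp (by
          rw [natDegree_X_pow_sub_C]
          exact (hS p hp).2) (by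
          rw [pow_one, Polynomial.map_sub, Polynomial.map_mul, Polynomial.map_pow, map_X, map_C,
            map_C, mul_sub, ← C_mul, ec, mul_div_cancel₀ _ hB'])
      exact ⟨s, fun _ => ⟨hs, sp, hr⟩⟩
    · exact ⟨0, fun h => absurd h hp⟩
  choose s hs using key
  refine ⟨insert f (S.image fun p => X ^ p - C (cst f)), s₀ * (∏ p ∈ S, s p) * B, ?_, ?_, ?_, ?_⟩
  · exact mul_ne_zero (mul_ne_zero hs₀ (Finset.prod_ne_zero_iff.2 fun p hp => (hs p hp).1)) hB0
  · intro h hh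
    rcases Finset.mem_insert.1 hh with rfl | hh
    · exact sf.ne_zero
    · obtain ⟨p, hp, rfl⟩ := Finset.mem_image.1 hh
      exact X_pow_sub_C_ne_zero (hS p hp).1.pos _
  · intro h hh
    rcases Finset.mem_insert.1 hh with rfl | hh
    · exact oddCycles_of_one sf (by rw [dn]; exact hn) h1
    · obtain ⟨p, hp, rfl⟩ := Finset.mem_image.1 hh
      exact oddCycles_of_one (hs p hp).2.1 (by
        rw [natDegree_X_pow_sub_C]
        exact (hS p hp).2) (h2 p hp)
  · intro v τ hF hτ κ _ π hr hk hπ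
    rw [map_mul, map_mul, map_prod] at hπ
    have hπB : π B ≠ 0 := right_ne_zero_of_mul hπ
    have hπ' := left_ne_zero_of_mul hπ
    have hπ0 : π s₀ ≠ 0 := left_ne_zero_of_mul hπ'
    have hπs : ∀ p ∈ S, π (s p) ≠ 0 := Finset.prod_ne_zero_iff.1 (right_ne_zero_of_mul hπ')
    have d1 : (f₁.map π).natDegree = n := by
      rw [natDegree_map_of_leadingCoeff_ne_zero π (by rw [← hB]; exact hπB), df₁]
    refine ⟨d1, fun m hm hmS => ?_⟩
    obtain ⟨P, u, hu, iP, sP, dP, eP⟩ := hr₀ v τ hF (hτ _ (Finset.mem_insert_self _ _)) κ π hr hk hπ0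
    have irr : Irreducible (f₁.map π) := by
      rw [eP, pow_one]
      exact (irreducible_isUnit_mul (isUnit_C.2 (isUnit_iff_ne_zero.2 hu))).2 iP
    apply expand_irr hm irr (by rw [d1]; exact hn)
    intro p hp hpm y hy
    have hpS := hmS p hp hpm
    obtain ⟨P', u', hu', iP', sP', dP', eP'⟩ := (hs p hpS).2.2 v τ hF
      (hτ _ (Finset.mem_insert_of_mem (Finset.mem_image_of_mem _ hpS))) κ π hr hk (hπs p hpS)
    have e3 : (f₁.map π).coeff 0 / (f₁.map π).leadingCoeff = π A / π B := by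
      rw [leadingCoeff_map_of_leadingCoeff_ne_zero π (by rw [← hB]; exact hπB), coeff_map, hA, hB]
    rw [e3] at hy
    have hyr : P'.IsRoot y := by
      have h3 := congrArg (eval y) eP'
      rw [pow_one, Polynomial.map_sub, Polynomial.map_mul, Polynomial.map_pow, map_X, map_C, map_C,
        eval_sub, eval_mul, eval_pow, eval_X, eval_C, eval_C, hy, mul_div_cancel₀ _ hπB, sub_self,
        eval_mul, eval_C] at h3
      exact (mul_eq_zero.1 h3.symm).resolve_left hu'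
    have hd := natDegree_eq_of_degree_eq_some (degree_eq_one_of_irreducible_of_root iP' hyr)
    rw [dP', natDegree_X_pow_sub_C] at hd
    exact hp.one_lt.ne' hd

/-- The number of the places of bad reduction. -/
noncomputable def badPlaces (a b : (𝓞 k)[X]) : ℕ :=
  ((b * (a ^ 2 - 4 * b)).map (algebraMap (𝓞 k) k)).roots.toFinset.card + if InfQ a b then 1 else 0

/-- There are at most eight of them. -/
theorem badPlaces_le {a b : (𝓞 k)[X]} (hB : BaseQ a b) : badPlaces a b ≤ 8 := by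
  have inj := FaithfulSMul.algebraMap_injective (𝓞 k) k
  obtain ⟨da, db, dd, hg⟩ := gQ_deg hB
  have hdeg : (b * (a ^ 2 - 4 * b)).natDegree ≤ b.natDegree + (a ^ 2 - 4 * b).natDegree :=
    natDegree_mul_le
  have cR : ((b * (a ^ 2 - 4 * b)).map (algebraMap (𝓞 k) k)).roots.toFinset.card ≤
      (b * (a ^ 2 - 4 * b)).natDegree := by
    refine (Multiset.toFinset_card_le _).trans ((card_roots' _).trans ?_)
    rw [natDegree_map_eq_of_injective inj]
  unfold badPlaces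
  by_cases hI : InfQ a b
  · rw [if_pos hI]
    unfold InfQ at hI
    omega
  · rw [if_neg hI]
    omega

/-- The forms of all the maps are irreducible. -/
theorem irr_tower {n : ℕ} (hn : Odd n) {S : Finset ℕ} {a b q r : (𝓞 k)[X]}
    (hG : GenK n S (b * (a ^ 2 - 4 * b)) q r) {m : ℕ} (hm : Odd m)
    (hmS : ∀ p : ℕ, p.Prime → p ∣ m → p ∈ S) (f : k[X])
    (hf : FormQ a b (expand (𝓞 k) m q) (expand (𝓞 k) m r) f) :
    Irreducible f ∧ f.natDegree = n * m := by
  rcases hf with ⟨ξ, hξ, rfl⟩ | ⟨-, -, rfl⟩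
  · have h1 := hG.gen.fm ξ hξ
    have e : (expand (𝓞 k) m q).map (algebraMap (𝓞 k) k) -
        C ξ * (expand (𝓞 k) m r).map (algebraMap (𝓞 k) k) =
        expand k m (q.map (algebraMap (𝓞 k) k) - C ξ * r.map (algebraMap (𝓞 k) k)) := by
      rw [map_expand, map_expand, map_sub, map_mul, expand_C]
    rw [e]
    refine ⟨expand_irr hm h1.1.1 (by rw [h1.1.2]; exact hn)
      fun p hp hpm => hG.km p (hmS p hp hpm) ξ hξ, ?_⟩
    rw [natDegree_expand, h1.1.2]
  · have h1 := hG.gen.fr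
    rw [map_expand]
    refine ⟨expand_irr hm h1.1.1 (by rw [h1.1.2]; exact hn)
      fun p hp hpm => hG.kr p (hmS p hp hpm), ?_⟩
    rw [natDegree_expand, h1.1.2]

theorem six_of {S : Finset ℕ} (hS : ∀ p ∈ S, 5 ≤ p) {m : ℕ}
    (hmS : ∀ p : ℕ, p.Prime → p ∣ m → p ∈ S) : Nat.Coprime m 6 := by
  apply Nat.Coprime.symm
  rw [Nat.coprime_iff_gcd_eq_one]
  by_contra hne
  obtain ⟨p, hp, hpd⟩ := Nat.exists_prime_and_dvd hne
  have h1 := hS p (hmS p hp (hpd.trans (Nat.gcd_dvd_right _ _)))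
  have h3 : p ∣ 6 := hpd.trans (Nat.gcd_dvd_left 6 m)
  have h2 := Nat.le_of_dvd (by norm_num) h3
  interval_cases p
  · omega
  · exact absurd hp (by norm_num)

theorem pos_tower {n : ℕ} (h5 : 5 ≤ n) (h6 : Nat.Coprime n 6) {S : Finset ℕ}
    {a b q r : (𝓞 k)[X]} (hS : ∀ p ∈ S, p.Prime ∧ 5 ≤ p ∧ badPlaces a b < p)
    (hζ : ∀ p ∈ S, ∃ ζ : k, IsPrimitiveRoot ζ p)
    (hB : BaseQ a b) (hG : GenK n S (b * (a ^ 2 - 4 * b)) q r) :
    ∃ δ : ℝ, 0 < δ ∧ ∀ᶠ N : ℕ in atTop,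
      δ ≤ dens (fun v => ∀ m : ℕ, m ≠ 0 → (∀ p : ℕ, p.Prime → p ∣ m → p ∈ S) →
        GoodQ (n * m) a b (expand (𝓞 k) m q) (expand (𝓞 k) m r) v) N := by
  have inj := FaithfulSMul.algebraMap_injective (𝓞 k) k
  have hn : Odd n := by
    rw [← Nat.not_even_iff_odd, even_iff_two_dvd]
    exact two_of_six h6 (dvd_refl n)
  obtain ⟨da, db, dd, hg⟩ := gQ_deg hB
  have hsp := hB.spl
  obtain ⟨B, hBd⟩ : ∃ B, B = badPlaces a b := ⟨_, rfl⟩
  rw [← hBd] at hS
  unfold badPlaces at hBd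
  obtain ⟨g, hgd⟩ : ∃ g, g = b * (a ^ 2 - 4 * b) := ⟨_, rfl⟩
  rw [← hgd] at hg hsp hG hBd
  have hdeg : g.natDegree ≤ b.natDegree + (a ^ 2 - 4 * b).natDegree := by
    rw [hgd]; exact natDegree_mul_le
  obtain ⟨q', hq'⟩ : ∃ q', q' = q.map (algebraMap (𝓞 k) k) := ⟨_, rfl⟩
  obtain ⟨r', hr'⟩ : ∃ r', r' = r.map (algebraMap (𝓞 k) k) := ⟨_, rfl⟩
  have hg0 : g.map (algebraMap (𝓞 k) k) ≠ 0 := by
    rw [Ne, Polynomial.map_eq_zero_iff inj]
    exact hg
  have dq : q.natDegree = n := by rw [← hG.gen.fq.1.2, natDegree_map_eq_of_injective inj]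
  have dr : r.natDegree = n := by rw [← hG.gen.fr.1.2, natDegree_map_eq_of_injective inj]
  obtain ⟨Rt, hRt⟩ : ∃ Rt, Rt = (g.map (algebraMap (𝓞 k) k)).roots.toFinset := ⟨_, rfl⟩
  have memR : ∀ ξ, ξ ∈ Rt ↔ (g.map (algebraMap (𝓞 k) k)).IsRoot ξ := by
    intro ξ
    rw [hRt, Multiset.mem_toFinset, mem_roots hg0]
  rw [← hRt] at hBd
  obtain ⟨F, hF⟩ : ∃ F : Finset k[X], F = (Rt.image fun ξ => q' - C ξ * r') ∪
      (if InfQ a b then {r'} else ∅) := ⟨_, rfl⟩
  have memF : ∀ f, f ∈ F ↔ ((∃ ξ ∈ Rt, q' - C ξ * r' = f) ∨ (InfQ a b ∧ f = r')) := by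
    intro f
    rw [hF, Finset.mem_union, Finset.mem_image]
    refine or_congr Iff.rfl ?_
    by_cases hI : InfQ a b
    · rw [if_pos hI, Finset.mem_singleton]
      exact ⟨fun h => ⟨hI, h⟩, fun h => h.2⟩
    · rw [if_neg hI]
      exact ⟨fun h => absurd h (Finset.notMem_empty f), fun h => absurd h.1 hI⟩
  have cF : F.card ≤ B := by
    rw [hF]
    refine (Finset.card_union_le _ _).trans ?_
    have h1 : (Rt.image fun ξ => q' - C ξ * r').card ≤ Rt.card := Finset.card_image_le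
    by_cases hI : InfQ a b
    · rw [if_pos hI] at hBd ⊢
      rw [Finset.card_singleton]
      omega
    · rw [if_neg hI] at hBd ⊢
      rw [Finset.card_empty]
      omega
  have hFF : ∀ f ∈ F, FF n f := by
    intro f hf
    rcases (memF f).1 hf with ⟨ξ, hξ, rfl⟩ | ⟨-, rfl⟩
    · rw [hq', hr']
      exact hG.gen.fm ξ ((memR ξ).1 hξ)
    · rw [hr']
      exact hG.gen.fr
  have hodd : ∀ p ∈ S, p.Prime ∧ Odd p := fun p hp =>
    ⟨(hS p hp).1, (hS p hp).1.odd_of_ne_two (by have := (hS p hp).2; omega)⟩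
  obtain ⟨σ, hσ1, hσ2⟩ := tower_sigma (F := F) h5 hn hFF (S := S)
    (fun p hp => ⟨(hodd p hp).1, (hodd p hp).2, lt_of_le_of_lt cF (hS p hp).2.2⟩) hζ (by
      intro p hp f hf
      rcases (memF f).1 hf with ⟨ξ, hξ, rfl⟩ | ⟨-, rfl⟩
      · rw [hq', hr']
        exact hG.km p hp ξ ((memR ξ).1 hξ)
      · rw [hr']
        exact hG.kr p hp)
  obtain ⟨l, hl'⟩ : ∃ l, l = g.leadingCoeff := ⟨_, rfl⟩
  have hl0 : l ≠ 0 := by rw [hl']; exact leadingCoeff_ne_zero.2 hg
  have hjl : algebraMap (𝓞 k) k l ≠ 0 := (map_ne_zero_iff _ inj).2 hl0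
  -- the data
  have key : ∀ ξ : k, ∃ (α : 𝓞 k) (G : Finset k[X]) (s : 𝓞 k), ξ ∈ Rt →
      algebraMap (𝓞 k) k α = algebraMap (𝓞 k) k l * ξ ∧ s ≠ 0 ∧ (∀ h ∈ G, h ≠ 0) ∧
      (∀ h ∈ G, OddCycles σ h) ∧ RedIrr S n G s (C l * q - C α * r) := by
    intro ξ
    by_cases hξ : ξ ∈ Rt
    · obtain ⟨α, hα⟩ := root_int ((memR ξ).1 hξ)
      rw [← hl'] at hα
      have hfm := (memF _).2 (Or.inl ⟨ξ, hξ, rfl⟩)
      obtain ⟨G, s, h1, h2, h3, h4⟩ := one_form (f₁ := C l * q - C α * r) (f := q' - C ξ * r')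
        (c := algebraMap (𝓞 k) k l) hn hjl (by
          rw [Polynomial.map_sub, Polynomial.map_mul, Polynomial.map_mul, map_C, map_C, hα, C_mul,
            hq', hr']
          ring) (hFF _ hfm).1.2 (hFF _ hfm).2.1 hodd (fun p hp => by
            rw [hq', hr']
            exact hG.km p hp ξ ((memR ξ).1 hξ)) (hσ1 _ hfm) (fun p hp => hσ2 p hp _ hfm)
      exact ⟨α, G, s, fun _ => ⟨hα, h1, h2, h3, h4⟩⟩
    · exact ⟨0, ∅, 0, fun h => absurd h hξ⟩
  choose α G s hkey using key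
  obtain ⟨Gi, si, hsi0, hGi0, hGi1, hi⟩ : ∃ (G : Finset k[X]) (s : 𝓞 k), s ≠ 0 ∧
      (∀ h ∈ G, h ≠ 0) ∧ (∀ h ∈ G, OddCycles σ h) ∧ (InfQ a b → RedIrr S n G s r) := by
    by_cases hI : InfQ a b
    · have hfm := (memF _).2 (Or.inr ⟨hI, rfl⟩)
      obtain ⟨G, s, h1, h2, h3, h4⟩ := one_form (f₁ := r) (f := r') (c := 1) hn one_ne_zero (by
          rw [C_1, one_mul, hr']) (hFF _ hfm).1.2 (hFF _ hfm).2.1 hodd (fun p hp => by
            rw [hr']
            exact hG.kr p hp) (hσ1 _ hfm) (fun p hp => hσ2 p hp _ hfm)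
      exact ⟨G, s, h1, h2, h3, fun _ => h4⟩
    · exact ⟨∅, 1, one_ne_zero, fun h hh => absurd hh (Finset.notMem_empty h),
        fun h hh => absurd hh (Finset.notMem_empty h), fun h => absurd h hI⟩
  have hM : MapDeg n q r := ⟨hG.gen.co, by omega, by omega, by omega, hn⟩
  obtain ⟨s₀, hs₀, hs₀'⟩ := goodQ_of hB hM h6
  obtain ⟨s₂, hs₂, hs₂'⟩ := cop_red hG.gen.co
  have hql : q.leadingCoeff ≠ 0 := by
    apply leadingCoeff_ne_zero.2
    rintro rfl
    rw [natDegree_zero] at dq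
    omega
  have htot : s₀ * s₂ * q.leadingCoeff * (∏ ξ ∈ Rt, s ξ) * si * l ≠ 0 := by
    refine mul_ne_zero (mul_ne_zero (mul_ne_zero (mul_ne_zero (mul_ne_zero hs₀ hs₂) hql) ?_)
      hsi0) hl0
    exact Finset.prod_ne_zero_iff.2 fun ξ hξ => (hkey ξ hξ).2.1
  refine pos_fam (F := Rt.biUnion G ∪ Gi) (σ := σ) ?_ ?_ (fin_bad htot)
    fun v hv τ hτ hfr m hm0 hmS κ _ π hsu hk => ?_
  · intro f hf
    rcases Finset.mem_union.1 hf with hf | hf
    · obtain ⟨ξ, hξ, hf⟩ := Finset.mem_biUnion.1 hf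
      exact (hkey ξ hξ).2.2.1 f hf
    · exact hGi0 f hf
  · intro f hf
    rcases Finset.mem_union.1 hf with hf | hf
    · obtain ⟨ξ, hξ, hf⟩ := Finset.mem_biUnion.1 hf
      exact (hkey ξ hξ).2.2.2.1 f hf
    · exact hGi1 f hf
  have hst : π (s₀ * s₂ * q.leadingCoeff * (∏ ξ ∈ Rt, s ξ) * si * l) ≠ 0 := by
    intro h0
    apply hv
    show s₀ * s₂ * q.leadingCoeff * (∏ ξ ∈ Rt, s ξ) * si * l ∈ v.asIdeal
    rw [← hk, RingHom.mem_ker]
    exact h0
  rw [map_mul, map_mul, map_mul, map_mul, map_mul, map_prod] at hst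
  have hπl : π l ≠ 0 := right_ne_zero_of_mul hst
  have hst := left_ne_zero_of_mul hst
  have hπi : π si ≠ 0 := right_ne_zero_of_mul hst
  have hst := left_ne_zero_of_mul hst
  have hπs : ∀ ξ ∈ Rt, π (s ξ) ≠ 0 := Finset.prod_ne_zero_iff.1 (right_ne_zero_of_mul hst)
  have hst := left_ne_zero_of_mul hst
  have hπq : π q.leadingCoeff ≠ 0 := right_ne_zero_of_mul hst
  have hst := left_ne_zero_of_mul hst
  have hπ2 : π s₂ ≠ 0 := right_ne_zero_of_mul hst
  have hπ0 : π s₀ ≠ 0 := left_ne_zero_of_mul hst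
  have hπl' : π g.leadingCoeff ≠ 0 := by rw [← hl']; exact hπl
  haveI := fin_res hsu hk
  obtain ⟨g1, g2, g3, -⟩ := hs₀' κ π hπ0
  have hm6 : Nat.Coprime m 6 := six_of (fun p hp => (hS p hp).2.1) hmS
  have hmo : Odd m := by
    rw [← Nat.not_even_iff_odd, even_iff_two_dvd]
    exact two_of_six hm6 (dvd_refl m)
  have eg : b.map π * (a.map π ^ 2 - 4 * b.map π) = g.map π := by
    rw [hgd, Polynomial.map_mul, gQ_map]
  have hC : Cover2 ((expand (𝓞 k) m q).map π) ((expand (𝓞 k) m r).map π) (n * m) (a.map π)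
      (b.map π) := by
    rw [map_expand, map_expand]
    refine ⟨?_, ?_, ?_, ?_, Nat.Coprime.mul_left h6 hm6, ?_, ?_⟩
    · exact (hs₂' κ π hπ2).map (expand κ m).toRingHom
    · rw [natDegree_expand, natDegree_map_of_leadingCoeff_ne_zero π hπq, dq]
      exact Nat.mul_pos (by omega) (Nat.pos_of_ne_zero hm0)
    · rw [natDegree_expand]
      exact Nat.mul_le_mul_right _ (natDegree_map_le.trans (by omega))
    · rw [natDegree_expand]
      exact Nat.mul_le_mul_right _ (natDegree_map_le.trans (by omega))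
    · intro P hP hPg
      rw [eg] at hPg
      refine ⟨PerfectField.separable_of_irreducible hP, ?_⟩
      obtain ⟨hspv, hrt⟩ := root_red hsp π hπl'
      have hgπ0 : g.map π ≠ 0 := by
        intro h0
        have h3 := leadingCoeff_map_of_leadingCoeff_ne_zero π hπl'
        rw [h0, leadingCoeff_zero] at h3
        exact hπl' h3.symm
      obtain ⟨η, hη⟩ := exists_root_of_degree_eq_one
        ((hspv.of_dvd hgπ0 hPg).degree_eq_one_of_irreducible hP)
      obtain ⟨x, hx⟩ := (irreducible_X_sub_C η).associated_of_dvd hP (dvd_iff_isRoot.2 hη)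
      obtain ⟨u, hu, hux⟩ := Polynomial.isUnit_iff.1 x.isUnit
      have eP : P = C u * (X - C η) := by rw [← hx, ← hux, mul_comm]
      have dP : P.natDegree = 1 := by rw [eP, natDegree_C_mul hu.ne_zero, natDegree_X_sub_C]
      obtain ⟨ξ, α', hξ, hα', hη'⟩ := hrt η (hη.dvd hPg)
      rw [← memR] at hξ
      obtain ⟨hα, -, -, -, hred⟩ := hkey ξ hξ
      rw [← hl'] at hα' hη'
      have eα : α' = α ξ := inj (by rw [hα', hα])
      obtain ⟨d1, hirr⟩ := hred v τ hfr (fun h hh => hτ _ (Finset.mem_union_left _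
        (Finset.mem_biUnion.2 ⟨ξ, hξ, hh⟩))) κ π hsu hk (hπs ξ hξ)
      have hirr := hirr m hmo hmS
      have e2 : (C l * q - C (α ξ) * r).map π = C (π l) * (q.map π - C η * r.map π) := by
        rw [Polynomial.map_sub, Polynomial.map_mul, Polynomial.map_mul, map_C, map_C, ← eα, ← hη',
          C_mul]
        ring
      refine ⟨expand κ m ((C l * q - C (α ξ) * r).map π), 1, n * m, u / π l,
        div_ne_zero hu.ne_zero hπl, hirr, PerfectField.separable_of_irreducible hirr, one_mul _, ?_,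
        ?_⟩
      · rw [natDegree_expand, d1, dP, mul_one]
      · rw [eP, pb_mul, pb_C, pb_lin, e2, map_mul, expand_C, map_sub, map_mul, expand_C, pow_one,
          ← mul_assoc, ← C_mul, div_mul_cancel₀ _ hπl]
    · rw [← gQ_map, g2, g3]
      by_cases hI : b.natDegree = 4 ∧ (a ^ 2 - 4 * b).natDegree = 4
      · exact Or.inl hI
      · right
        obtain ⟨d1, hirr⟩ := hi hI v τ hfr (fun h hh => hτ _ (Finset.mem_union_right _ hh)) κ π hsu
          hk hπi
        have hirr := hirr m hmo hmS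
        refine Or.inr ⟨expand κ m (r.map π), 1, n * m, 1, one_ne_zero, hirr,
          PerfectField.separable_of_irreducible hirr, one_mul _, ?_, ?_⟩
        · rw [natDegree_expand, d1]
        · rw [C_1, one_mul, pow_one]
  refine ⟨g1, g2, g3, hC, ?_⟩
  intro L L' K₀ K F _ _ _ _ _ _ _ _ _ _ _ _ _ _ hT hn
  exact mainQ hT g1 hC hn

end

end Pool.Agent.J4H46.TS
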