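import Pool.Agent.J4H46.TS.Cnt

/-!
The sieve for the pairs of polynomials whose combinations have the full symmetric Galois groups and whose constants
are not powers.
-/

set_option autoImplicit false
set_option linter.all false

open Polynomial NumberField IsDedekindDomain
open scoped Classical

namespace Pool.Agent.J4H46.TS

open Pool.Agent.N181.P3 (Zq Idx cl cm cl_ne cl_det Lev_card' linQ)
open Pool.Agent.X243.Gen (FF FF_unit Lev densityU lf lf_map)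
open Pool.Agent.X243.Sol (DD D3_pos)
open Pool.Agent.X243.Tate (bF_map)
open Pool.Agent.Y160.T3 (bF bF_coeff)
open Pool.Agent.J4H46.TR (Zs Zs_inf GenGood inj_int)

section

variable {k k' : Type} [Field k] [NumberField k] [Field k'] [NumberField k'] [Algebra k k']

/-- The transported events. -/
def Gs {S : Finset ℕ} {n μ : ℕ} (D : 𝓞 k) (ρ : Fin μ → 𝓞 k')
    (s : Option (Idx μ × Fin 3) ⊕ (Idx μ × S)) (p : Ideal (𝓞 k)) :
    Set (Fin (n + 1) ⊕ Fin (n + 1) → 𝓞 k ⧸ p) :=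
  {x | ∃ (P : Ideal (𝓞 k')) (hP : P.comap (algebraMap (𝓞 k) (𝓞 k')) = p),
    P ∈ Zq (𝓞 k') (2 * n + 2) (algebraMap (𝓞 k) (𝓞 k') D) ∧
    (fun j => Ideal.quotientMap P (algebraMap (𝓞 k) (𝓞 k')) (le_of_eq hP.symm) (x j)) ∈
      LK n (cl (algebraMap (𝓞 k) (𝓞 k') D)) (cm ρ) none (some none) s P}

/-- The roots of unity modulo the primes which do not divide `p`. -/
theorem root_mod {R : Type} [CommRing R] [IsDomain R] {p : ℕ} {ζ : R} (hζ : ζ ^ p = 1)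
    (h1 : ζ ≠ 1) {P : Ideal R} (hp : (p : R) ∉ P) : ∃ z : R ⧸ P, z ^ p = 1 ∧ z ≠ 1 := by
  refine ⟨Ideal.Quotient.mk P ζ, by rw [← map_pow, hζ, map_one], fun h => hp ?_⟩
  have h2 : (ζ - 1) * ∑ i ∈ Finset.range p, ζ ^ i = 0 := by
    rw [mul_comm, geom_sum_mul, hζ, sub_self]
  have h3 := (mul_eq_zero.1 h2).resolve_left (sub_ne_zero.2 h1)
  have h4 := congrArg (Ideal.Quotient.mk P) h3
  rw [map_sum, map_zero] at h4
  rw [← Ideal.Quotient.eq_zero_iff_mem, map_natCast]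
  rw [← h4]
  simp [map_pow, h]

theorem Gs_card {S : Finset ℕ} {n μ B : ℕ} (hn : 3 ≤ n) (hS : ∀ p ∈ S, p.Prime ∧ p ≤ B)
    (hB : 1 ≤ B) (hζ : ∀ p ∈ S, ∃ ζ : 𝓞 k', ζ ^ p = 1 ∧ ζ ≠ 1) {D : 𝓞 k}
    (hDS : ∀ p ∈ S, (p : 𝓞 k) ∣ D) (ρ : Fin μ → 𝓞 k')
    (s : Option (Idx μ × Fin 3) ⊕ (Idx μ × S)) {p : Ideal (𝓞 k)}
    (hp : p ∈ Zs k k' (2 * n + 2) D) :
    Nat.card (𝓞 k ⧸ p) ^ (2 * n + 2) ≤ (DD n * DD n * (8 * B)) * (Gs (n := n) D ρ s p).ncard := by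
  obtain ⟨hm, hfin, hcard, hD, P, hPm, hP, hsurj⟩ := hp
  haveI := hfin
  obtain ⟨e, he⟩ : ∃ e : (𝓞 k ⧸ p) →+* (𝓞 k' ⧸ P),
      e = Ideal.quotientMap P (algebraMap (𝓞 k) (𝓞 k')) (le_of_eq hP.symm) := ⟨_, rfl⟩
  have hmk : ∀ z, e (Ideal.Quotient.mk p z) = Ideal.Quotient.mk P (algebraMap (𝓞 k) (𝓞 k') z) := by
    intro z; rw [he]; rfl
  have esurj : Function.Surjective e := by
    intro x
    obtain ⟨z, hz⟩ := hsurj x
    exact ⟨Ideal.Quotient.mk p z, by rw [hmk, ← hz]; rfl⟩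
  have einj : Function.Injective e := by
    rw [injective_iff_map_eq_zero]
    intro x hx
    obtain ⟨z, rfl⟩ := Ideal.Quotient.mk_surjective x
    rw [hmk, Ideal.Quotient.eq_zero_iff_mem, ← Ideal.mem_comap, hP] at hx
    exact Ideal.Quotient.eq_zero_iff_mem.2 hx
  have ecard : Nat.card (𝓞 k ⧸ p) = Nat.card (𝓞 k' ⧸ P) :=
    Nat.card_congr (Equiv.ofBijective e ⟨einj, esurj⟩)
  haveI : Finite (𝓞 k' ⧸ P) := Finite.of_surjective e esurj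
  have hD' : algebraMap (𝓞 k) (𝓞 k') D ∉ P := by
    intro h
    apply hD
    rw [← hP]
    exact h
  have hZ : P ∈ Zq (𝓞 k') (2 * n + 2) (algebraMap (𝓞 k) (𝓞 k') D) :=
    ⟨hPm, inferInstance, by rw [← ecard]; exact hcard, hD'⟩
  have h1 := LK_card hn hS hB (cl (algebraMap (𝓞 k) (𝓞 k') D)) (cm ρ) none (some none) s hPm
    inferInstance hZ.2.2.1 (cl_ne ρ hPm hD') (cl_det _ ρ hPm) (by
      intro l hl
      obtain ⟨ζ, hζ1, hζ2⟩ := hζ l hl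
      refine root_mod hζ1 hζ2 fun h => hD' ?_
      obtain ⟨c, hc⟩ := hDS l hl
      rw [hc, map_mul, map_natCast]
      exact P.mul_mem_right _ h)
  rw [ecard]
  refine h1.trans (Nat.mul_le_mul_left _ ?_)
  obtain ⟨T, hT⟩ : ∃ T : (Fin (n + 1) ⊕ Fin (n + 1) → 𝓞 k' ⧸ P) →
      (Fin (n + 1) ⊕ Fin (n + 1) → 𝓞 k ⧸ p),
      T = fun z j => (Equiv.ofBijective e ⟨einj, esurj⟩).symm (z j) := ⟨_, rfl⟩
  have hTe : ∀ z j, e (T z j) = z j := by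
    intro z j
    rw [hT]
    exact (Equiv.ofBijective e ⟨einj, esurj⟩).apply_symm_apply (z j)
  have hTinj : Function.Injective T := by
    intro z w h
    funext j
    rw [← hTe z j, ← hTe w j, h]
  rw [← Set.ncard_image_of_injective _ hTinj]
  apply Set.ncard_le_ncard ?_ (Set.toFinite _)
  rintro _ ⟨z, hz, rfl⟩
  refine ⟨P, hP, hZ, ?_⟩
  have : (fun j => Ideal.quotientMap P (algebraMap (𝓞 k) (𝓞 k')) (le_of_eq hP.symm) (T z j)) = z := by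
    funext j
    rw [← he]
    exact hTe z j
  rw [this]
  exact hz

variable (k k') in
theorem densS {S : Finset ℕ} {n μ : ℕ} (hn : 3 ≤ n) (hS : ∀ p ∈ S, p.Prime)
    (hζ : ∀ p ∈ S, ∃ ζ : 𝓞 k', ζ ^ p = 1 ∧ ζ ≠ 1) {D : 𝓞 k} (hD : D ≠ 0)
    (hDS : ∀ p ∈ S, (p : 𝓞 k) ∣ D) (η : ℝ) (hη : 0 < η) :
    ∃ M : Ideal (𝓞 k), Finite (𝓞 k ⧸ M) ∧ ∀ ρ : Fin μ → 𝓞 k',
      (1 - η) * (Nat.card (𝓞 k ⧸ M) : ℝ) ^ (Fintype.card (Fin (n + 1) ⊕ Fin (n + 1))) ≤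
      (({x : Fin (n + 1) ⊕ Fin (n + 1) → 𝓞 k ⧸ M | ∀ y : Fin (n + 1) ⊕ Fin (n + 1) → 𝓞 k,
        (∀ j, Ideal.Quotient.mk M (y j) = x j) → ∀ s : Option (Idx μ × Fin 3) ⊕ (Idx μ × S),
        ∃ P ∈ Zq (𝓞 k') (2 * n + 2) (algebraMap (𝓞 k) (𝓞 k') D),
          (fun j => Ideal.Quotient.mk P (algebraMap (𝓞 k) (𝓞 k') (y j))) ∈
            LK n (cl (algebraMap (𝓞 k) (𝓞 k') D)) (cm ρ) none (some none) s P}).ncard : ℝ) := by
  obtain ⟨B, hB1, hB⟩ : ∃ B : ℕ, 1 ≤ B ∧ ∀ p ∈ S, p ≤ B := by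
    refine ⟨S.sup id + 1, by omega, fun p hp => ?_⟩
    have := Finset.le_sup (f := id) hp
    simp only [id] at this
    omega
  have hDD : 0 < DD n := by
    have := D3_pos n
    unfold DD
    positivity
  have hD' : (0 : ℝ) < ((DD n * DD n * (8 * B) : ℕ) : ℝ) := by
    have : 0 < DD n * DD n * (8 * B) := Nat.mul_pos (Nat.mul_pos hDD hDD) (by omega)
    exact_mod_cast this
  obtain ⟨M, hM, h⟩ := densityU (Fin (n + 1) ⊕ Fin (n + 1))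
    (Option (Idx μ × Fin 3) ⊕ (Idx μ × S))
    (Zs k k' (2 * n + 2) D) (Zs_inf _ hD) (fun p hp => hp.1) (fun p hp => hp.2.1)
    (c := 1 / ((DD n * DD n * (8 * B) : ℕ) : ℝ)) (by positivity) η hη
  haveI := hM
  refine ⟨M, hM, fun ρ => (h (fun s p => Gs D ρ s p) ?_).trans ?_⟩
  · intro s p hp
    have h1 := Gs_card hn (fun p hp => ⟨hS p hp, hB p hp⟩) hB1 hζ hDS ρ s hp
    have hc : Fintype.card (Fin (n + 1) ⊕ Fin (n + 1)) = 2 * n + 2 := by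
      rw [Fintype.card_sum, Fintype.card_fin]
      omega
    rw [hc, one_div, inv_mul_le_iff₀ hD']
    exact_mod_cast h1
  · have h5 : ∀ S T : Set (Fin (n + 1) ⊕ Fin (n + 1) → 𝓞 k ⧸ M), S ⊆ T →
        ((S.ncard : ℕ) : ℝ) ≤ ((T.ncard : ℕ) : ℝ) := fun S T h => by
      exact_mod_cast Set.ncard_le_ncard h (Set.toFinite _)
    apply h5
    intro x hx y hy s
    obtain ⟨p, -, hp⟩ := hx s
    obtain ⟨P, hP, hZ, hL⟩ := hp y hy
    exact ⟨P, hZ, hL⟩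

/-- The forms over `k'`, of degree `n`, for the roots of `g`, have the full symmetric Galois groups, and the
quotients of their constant terms by their leading coefficients are not `p`-th powers for the `p` in `S`. -/
structure GenK (n : ℕ) (S : Finset ℕ) (g q r : (𝓞 k')[X]) : Prop where
  gen : GenGood n g q r
  kr : ∀ p ∈ S, ∀ y : k', y ^ p ≠ cst (r.map (algebraMap (𝓞 k') k'))
  km : ∀ p ∈ S, ∀ ξ : k', (g.map (algebraMap (𝓞 k') k')).IsRoot ξ →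
    ∀ y : k', y ^ p ≠ cst (q.map (algebraMap (𝓞 k') k') - C ξ * r.map (algebraMap (𝓞 k') k'))

theorem cst_C_mul {K : Type} [Field K] {d : K} (hd : d ≠ 0) (f : K[X]) : cst (C d * f) = cst f := by
  unfold cst
  rw [coeff_C_mul, leadingCoeff_mul, leadingCoeff_C, mul_div_mul_left _ _ hd]

variable (k k') in
/-- **The sieve.** -/
theorem dens_pairs {S : Finset ℕ} {n : ℕ} (hn : 3 ≤ n) (hS : ∀ p ∈ S, p.Prime)
    (hζ : ∀ p ∈ S, ∃ ζ : k', IsPrimitiveRoot ζ p) {g : (𝓞 k)[X]} (hg : g ≠ 0) (η : ℝ)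
    (hη : 0 < η) :
    ∃ M : Ideal (𝓞 k), Finite (𝓞 k ⧸ M) ∧
      (1 - η) * (Nat.card (𝓞 k ⧸ M) : ℝ) ^ (Fintype.card (Fin (n + 1) ⊕ Fin (n + 1))) ≤
      (({x : Fin (n + 1) ⊕ Fin (n + 1) → 𝓞 k ⧸ M | ∀ y : Fin (n + 1) ⊕ Fin (n + 1) → 𝓞 k,
        (∀ j, Ideal.Quotient.mk M (y j) = x j) →
          GenK n S (g.map (algebraMap (𝓞 k) (𝓞 k')))
            ((bF (y ∘ Sum.inl)).map (algebraMap (𝓞 k) (𝓞 k')))
            ((bF (y ∘ Sum.inr)).map (algebraMap (𝓞 k) (𝓞 k')))}).ncard : ℝ) := by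
  have inj := inj_int (k := k) (k' := k')
  have injk := FaithfulSMul.algebraMap_injective (𝓞 k') k'
  obtain ⟨Q, hQ⟩ : ∃ Q : 𝓞 k, Q = ∏ p ∈ S, (p : 𝓞 k) := ⟨_, rfl⟩
  have hQ0 : Q ≠ 0 := by
    rw [hQ, Finset.prod_ne_zero_iff]
    exact fun p hp => Nat.cast_ne_zero.2 (hS p hp).ne_zero
  obtain ⟨g', hg'⟩ : ∃ g', g' = g.map (algebraMap (𝓞 k) (𝓞 k')) := ⟨_, rfl⟩
  have hg'0 : g' ≠ 0 := by rw [hg', Ne, Polynomial.map_eq_zero_iff inj]; exact hg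
  have hl : g'.leadingCoeff = algebraMap (𝓞 k) (𝓞 k') g.leadingCoeff := by
    rw [hg', leadingCoeff_map_of_injective inj]
  have hl0 := leadingCoeff_ne_zero.2 hg
  obtain ⟨D, hD⟩ : ∃ D : 𝓞 k, D = Q * g.leadingCoeff := ⟨_, rfl⟩
  have hD0 : D ≠ 0 := by rw [hD]; exact mul_ne_zero hQ0 hl0
  have hDS : ∀ p ∈ S, (p : 𝓞 k) ∣ D := by
    intro p hp
    rw [hD, hQ]
    exact (Finset.dvd_prod_of_mem _ hp).mul_right _
  have hd' : algebraMap (𝓞 k') k' (algebraMap (𝓞 k) (𝓞 k') D) ≠ 0 := by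
    rw [Ne, map_eq_zero_iff _ injk, map_eq_zero_iff _ inj]
    exact hD0
  obtain ⟨Rt, hRt⟩ : ∃ Rt, Rt = (g'.map (algebraMap (𝓞 k') k')).roots.toFinset := ⟨_, rfl⟩
  have memR : ∀ ξ, ξ ∈ Rt ↔ (g'.map (algebraMap (𝓞 k') k')).IsRoot ξ := by
    intro ξ
    rw [hRt, Multiset.mem_toFinset, mem_roots ((Polynomial.map_ne_zero_iff injk).2 hg'0)]
  obtain ⟨m, em⟩ : ∃ m, m = Rt.card := ⟨_, rfl⟩
  let φ : Fin m ≃ {x // x ∈ Rt} := (finCongr em).trans Rt.equivFin.symm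
  have hint : ∀ i : Fin m, ∃ c : 𝓞 k', algebraMap (𝓞 k') k' c =
      algebraMap (𝓞 k') k' (algebraMap (𝓞 k) (𝓞 k') D) * (φ i).1 := by
    intro i
    obtain ⟨c, hc⟩ := Pool.Agent.J4H46.TP.root_int ((memR _).1 (φ i).2)
    refine ⟨algebraMap (𝓞 k) (𝓞 k') Q * c, ?_⟩
    rw [map_mul, hc, hl, hD, map_mul (algebraMap (𝓞 k) (𝓞 k')), map_mul (algebraMap (𝓞 k') k')]
    ring
  choose ρ hρ using hint
  have hζ' : ∀ p ∈ S, ∃ ζ : 𝓞 k', ζ ^ p = 1 ∧ ζ ≠ 1 := by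
    intro p hp
    obtain ⟨ζ, hz⟩ := hζ p hp
    refine ⟨⟨ζ, hz.isIntegral (hS p hp).pos⟩, ?_, ?_⟩
    · apply injk
      rw [map_pow, map_one]
      exact hz.pow_eq_one
    · intro h
      apply hz.ne_one (hS p hp).one_lt
      have := congrArg (algebraMap (𝓞 k') k') h
      rw [map_one] at this
      exact this
  obtain ⟨M, hM, h⟩ := densS k k' (μ := m) hn hS hζ' hD0 hDS η hη
  haveI := hM
  refine ⟨M, hM, (h ρ).trans ?_⟩
  have h5 : ∀ S T : Set (Fin (n + 1) ⊕ Fin (n + 1) → 𝓞 k ⧸ M), S ⊆ T →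
      ((S.ncard : ℕ) : ℝ) ≤ ((T.ncard : ℕ) : ℝ) := fun S T h => by
    exact_mod_cast Set.ncard_le_ncard h (Set.toFinite _)
  apply h5
  intro x hx y hy
  have hev := hx y hy
  obtain ⟨y', hy'⟩ : ∃ y' : Fin (n + 1) ⊕ Fin (n + 1) → 𝓞 k',
      y' = fun j => algebraMap (𝓞 k) (𝓞 k') (y j) := ⟨_, rfl⟩
  obtain ⟨f1, f2, f3, f4⟩ := linQ (R := 𝓞 k') (k := k') hn
    (y := fun j => algebraMap (𝓞 k) (𝓞 k') (y j)) (fun s => hev (Sum.inl s))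
    (((bF (y ∘ Sum.inl)).map (algebraMap (𝓞 k) (𝓞 k'))).map (algebraMap (𝓞 k') k'))
    (((bF (y ∘ Sum.inr)).map (algebraMap (𝓞 k) (𝓞 k'))).map (algebraMap (𝓞 k') k'))
    (by rw [bF_map]; rfl) (by rw [bF_map]; rfl)
  have e1 : ∀ ξ (hξ' : ξ ∈ Rt), algebraMap (𝓞 k') k' (ρ (φ.symm ⟨ξ, hξ'⟩)) =
      algebraMap (𝓞 k') k' (algebraMap (𝓞 k) (𝓞 k') D) * ξ := by
    intro ξ hξ'
    rw [hρ, Equiv.apply_symm_apply]
  have bl : (bF (y ∘ Sum.inl)).map (algebraMap (𝓞 k) (𝓞 k')) =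
      bF ((fun j => algebraMap (𝓞 k) (𝓞 k') (y j)) ∘ Sum.inl) := by rw [bF_map]; rfl
  have br : (bF (y ∘ Sum.inr)).map (algebraMap (𝓞 k) (𝓞 k')) =
      bF ((fun j => algebraMap (𝓞 k) (𝓞 k') (y j)) ∘ Sum.inr) := by rw [bF_map]; rfl
  have npow : ∀ (i : Idx m) (p : ℕ), p ∈ S → ∀ G : (𝓞 k')[X],
      G = C (cl (algebraMap (𝓞 k) (𝓞 k') D) i) *
        bF ((fun j => algebraMap (𝓞 k) (𝓞 k') (y j)) ∘ Sum.inl) +
        C (cm ρ i) * bF ((fun j => algebraMap (𝓞 k) (𝓞 k') (y j)) ∘ Sum.inr) →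
      (G.map (algebraMap (𝓞 k') k')).natDegree = n →
      ∀ y : k', y ^ p ≠ cst (G.map (algebraMap (𝓞 k') k')) := by
    intro i p hp G hG hd
    obtain ⟨P, hP, hmem⟩ := hev (Sum.inr (i, ⟨p, hp⟩))
    have hmem' : lf (fun i => Ideal.Quotient.mk P (cl (algebraMap (𝓞 k) (𝓞 k') D) i))
      (fun i => Ideal.Quotient.mk P (cm ρ i)) i
        (fun j => Ideal.Quotient.mk P (algebraMap (𝓞 k) (𝓞 k') (y j))) ∈
        Kset (𝓞 k' ⧸ P) n p := hmem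
    refine nonpow (hS p hp).pos hP.1 hmem' ?_ hd
    rw [hG]
    exact (lf_map (Ideal.Quotient.mk P) (cl (algebraMap (𝓞 k) (𝓞 k') D)) (cm ρ) i
      (fun j => algebraMap (𝓞 k) (𝓞 k') (y j))).symm
  refine ⟨⟨f4, f1, f2, fun ξ hξ => ?_⟩, fun p hp => ?_, fun p hp ξ hξ => ?_⟩
  · rw [← hg'] at hξ
    have hξ' := (memR ξ).2 hξ
    apply FF_unit hd'
    have h3 := f3 (φ.symm ⟨ξ, hξ'⟩)
    rw [e1, C_mul, mul_assoc, ← mul_sub] at h3
    exact h3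
  · refine npow (some none) p hp _ ?_ f2.1.2
    rw [br]
    show _ = C (0 : 𝓞 k') * _ + C (1 : 𝓞 k') * _
    rw [C_0, zero_mul, zero_add, C_1, one_mul]
  · rw [← hg'] at hξ
    have hξ' := (memR ξ).2 hξ
    have h3 := f3 (φ.symm ⟨ξ, hξ'⟩)
    have e2 : (C (algebraMap (𝓞 k) (𝓞 k') D) * (bF (y ∘ Sum.inl)).map (algebraMap (𝓞 k) (𝓞 k')) +
        C (-ρ (φ.symm ⟨ξ, hξ'⟩)) * (bF (y ∘ Sum.inr)).map (algebraMap (𝓞 k) (𝓞 k'))).map
          (algebraMap (𝓞 k') k') =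
        C (algebraMap (𝓞 k') k' (algebraMap (𝓞 k) (𝓞 k') D)) *
          ((((bF (y ∘ Sum.inl)).map (algebraMap (𝓞 k) (𝓞 k'))).map (algebraMap (𝓞 k') k')) -
          C ξ * (((bF (y ∘ Sum.inr)).map (algebraMap (𝓞 k) (𝓞 k'))).map (algebraMap (𝓞 k') k'))) := by
      rw [Polynomial.map_add, Polynomial.map_mul, Polynomial.map_mul, map_C, map_C, map_neg, e1,
        C_neg, C_mul]
      ring
    rw [← cst_C_mul hd', ← e2]
    refine npow (some (some (φ.symm ⟨ξ, hξ'⟩))) p hp _ ?_ ?_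
    · rw [bl, br]
      rfl
    · rw [e2, natDegree_C_mul hd']
      rw [e1, C_mul, mul_assoc, ← mul_sub] at h3
      have := h3.1.2
      rwa [natDegree_C_mul hd'] at this

end

end Pool.Agent.J4H46.TS
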